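import Pool.Agent.H978R3.SL.Stmts

set_option autoImplicit false

open Set Filter Topology Metric Bornology

namespace Pool.Agent.H564R3.SLF6

open Pool.Agent.H978R3.SL

/-- entire functions of polynomial growth are polynomials -/
theorem poly_of_growth : ∀ (N : ℕ) (E : ℂ → ℂ), Differentiable ℂ E →
    (∃ C : ℝ, ∀ z, ‖E z‖ ≤ C * (1 + ‖z‖) ^ N) → ∃ p : Polynomial ℂ, ∀ z, E z = p.eval z := by
  intro N
  induction N with
  | zero =>
    rintro E hE ⟨C, hC⟩
    refine ⟨Polynomial.C (E 0), fun z => ?_⟩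
    rw [Polynomial.eval_C]
    apply hE.apply_eq_apply_of_bounded
    rw [isBounded_iff_forall_norm_le]
    refine ⟨C, ?_⟩
    rintro _ ⟨w, rfl⟩
    simpa using hC w
  | succ N ih =>
    rintro E hE ⟨C, hC⟩
    have hF : Differentiable ℂ (dslope E 0) := by
      rw [← differentiableOn_univ]
      exact (Complex.differentiableOn_dslope univ_mem).2 hE.differentiableOn
    obtain ⟨M, hM⟩ := (isCompact_closedBall (0 : ℂ) 1).exists_bound_of_continuousOn
      hF.continuous.continuousOn
    have hC0 : 0 ≤ C := by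
      have := hC 0
      simp only [norm_zero, add_zero, one_pow, mul_one] at this
      exact (norm_nonneg _).trans this
    have hM0 : 0 ≤ M := (norm_nonneg _).trans (hM 0 (by simp))
    obtain ⟨p, hp⟩ := ih (dslope E 0) hF ⟨M + 2 * (C + ‖E 0‖), fun z => by
      have h1 : 1 ≤ (1 + ‖z‖) ^ N := one_le_pow₀ (by linarith [norm_nonneg z])
      by_cases hz : ‖z‖ ≤ 1
      · have h2 := hM z (by simpa using hz)
        have h3 : 0 ≤ 2 * (C + ‖E 0‖) := by positivity
        nlinarith
      · push Not at hz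
        have hz0 : z ≠ 0 := by
          rintro rfl; simp at hz; linarith
        have h2 : dslope E 0 z = (E z - E 0) / z := by
          rw [dslope_of_ne _ hz0, slope_def_field, sub_zero]
        rw [h2, norm_div, div_le_iff₀ (by linarith)]
        have h3 : ‖E z - E 0‖ ≤ (C + ‖E 0‖) * (1 + ‖z‖) ^ (N + 1) := by
          have h4 : 1 ≤ (1 + ‖z‖) ^ (N + 1) := one_le_pow₀ (by linarith [norm_nonneg z])
          calc ‖E z - E 0‖ ≤ ‖E z‖ + ‖E 0‖ := norm_sub_le _ _
            _ ≤ C * (1 + ‖z‖) ^ (N + 1) + ‖E 0‖ * (1 + ‖z‖) ^ (N + 1) := by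
              gcongr
              · exact hC z
              · exact le_mul_of_one_le_right (norm_nonneg _) h4
            _ = _ := by ring
        calc ‖E z - E 0‖ ≤ (C + ‖E 0‖) * (1 + ‖z‖) ^ (N + 1) := h3
          _ = (C + ‖E 0‖) * (1 + ‖z‖) ^ N * (1 + ‖z‖) := by ring
          _ ≤ (C + ‖E 0‖) * (1 + ‖z‖) ^ N * (2 * ‖z‖) := by gcongr; linarith
          _ = (2 * (C + ‖E 0‖)) * (1 + ‖z‖) ^ N * ‖z‖ := by ring
          _ ≤ (M + 2 * (C + ‖E 0‖)) * (1 + ‖z‖) ^ N * ‖z‖ := by gcongr; linarith⟩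
    refine ⟨Polynomial.C (E 0) + Polynomial.X * p, fun z => ?_⟩
    have h1 := sub_smul_dslope E 0 z
    rw [sub_zero, smul_eq_mul] at h1
    simp only [Polynomial.eval_add, Polynomial.eval_C, Polynomial.eval_mul, Polynomial.eval_X]
    rw [← hp z, h1]; ring

/-- polynomials have polynomial growth -/
theorem poly_growth (p : Polynomial ℂ) : ∃ (N : ℕ) (C : ℝ), 0 ≤ C ∧
    ∀ z, ‖p.eval z‖ ≤ C * (1 + ‖z‖) ^ N := by
  induction p using Polynomial.induction_on' with
  | add p q hp hq =>
    obtain ⟨N1, C1, h1, hp⟩ := hp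
    obtain ⟨N2, C2, h2, hq⟩ := hq
    refine ⟨max N1 N2, C1 + C2, by positivity, fun z => ?_⟩
    have hb : 1 ≤ 1 + ‖z‖ := by linarith [norm_nonneg z]
    rw [Polynomial.eval_add]
    calc ‖p.eval z + q.eval z‖ ≤ ‖p.eval z‖ + ‖q.eval z‖ := norm_add_le _ _
      _ ≤ C1 * (1 + ‖z‖) ^ N1 + C2 * (1 + ‖z‖) ^ N2 := add_le_add (hp z) (hq z)
      _ ≤ C1 * (1 + ‖z‖) ^ (max N1 N2) + C2 * (1 + ‖z‖) ^ (max N1 N2) := by
        gcongr
        · exact le_max_left _ _
        · exact le_max_right _ _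
      _ = _ := by ring
  | monomial n a =>
    refine ⟨n, ‖a‖, norm_nonneg _, fun z => ?_⟩
    rw [Polynomial.eval_monomial, norm_mul, norm_pow]
    gcongr
    linarith [norm_nonneg z]

theorem qf_meromorphicAt {f : ℂ → ℂ} (hf : MF f) (β z : ℂ) : MeromorphicAt (qf f β) z := by
  by_cases h : AnalyticAt ℂ f z
  · have h1 : MeromorphicAt (fun w => (f w - β)⁻¹) z :=
      ((h.sub analyticAt_const).meromorphicAt).inv
    refine h1.congr ?_
    have h2 : ∀ᶠ w in 𝓝[≠] z, AnalyticAt ℂ f w :=
      h.eventually_analyticAt.filter_mono nhdsWithin_le_nhds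
    filter_upwards [h2] with w hw
    simp only [qf, if_pos hw]
  · exact (qf_analyticAt hf (fun h' => absurd h' h)).meromorphicAt

/-- TASK F6 -/
theorem taskF6 : TaskF6 := by
  rintro f β hf ⟨R, c, hc, hR⟩
  have hqa : ∀ z, R ≤ ‖z‖ → AnalyticAt ℂ (qf f β) z := by
    intro z hz
    apply qf_analyticAt hf
    intro ha he
    have := hR z hz ha
    rw [he, sub_self, norm_zero] at this
    linarith
  have hqb : ∀ z, R ≤ ‖z‖ → ‖qf f β z‖ ≤ c⁻¹ := by
    intro z hz
    by_cases ha : AnalyticAt ℂ f z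
    · simp only [qf, if_pos ha, norm_inv]
      exact inv_anti₀ hc (hR z hz ha)
    · simp only [qf, if_neg ha, norm_zero]
      positivity
  set Z : Set ℂ := {z | ¬ AnalyticAt ℂ (qf f β) z} with hZ
  have hZsub : Z ⊆ ball 0 R := by
    intro z hz
    rw [mem_ball_zero_iff]
    by_contra h
    exact hz (hqa z (not_lt.1 h))
  have hZfin : Z.Finite := by
    have hcl : IsClosed Z := by
      have : IsOpen {z | AnalyticAt ℂ (qf f β) z} := isOpen_analyticAt ℂ _
      exact this.isClosed_compl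
    have hcomp : IsCompact Z := by
      apply Metric.isCompact_of_isClosed_isBounded hcl
      exact isBounded_ball.subset hZsub
    by_contra hinf
    obtain ⟨x, hx, hacc⟩ := Set.Infinite.exists_accPt_of_subset_isCompact hinf hcomp subset_rfl
    have h1 := (qf_meromorphicAt hf β x).eventually_analyticAt
    rw [accPt_iff_frequently_nhdsNE] at hacc
    exact hacc (h1.mono fun y hy hy' => hy' hy)
  have hex : ∀ a : ℂ, ∃ n : ℕ, AnalyticAt ℂ (fun z => (z - a) ^ n • qf f β z) a := fun a =>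
    qf_meromorphicAt hf β a
  choose n hn using hex
  set P : Polynomial ℂ := ∏ a ∈ hZfin.toFinset, (Polynomial.X - Polynomial.C a) ^ (n a) with hP
  have hPev : ∀ z, P.eval z = ∏ a ∈ hZfin.toFinset, (z - a) ^ (n a) := by
    intro z
    rw [hP, Polynomial.eval_prod]
    simp
  have hPne : ∀ z, z ∉ Z → P.eval z ≠ 0 := by
    intro z hz
    rw [hPev, Finset.prod_ne_zero_iff]
    intro a ha
    apply pow_ne_zero
    rw [sub_ne_zero]
    rintro rfl
    exact hz (hZfin.mem_toFinset.1 ha)
  have hEd : Differentiable ℂ (fun z => P.eval z * qf f β z) := by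
    intro z
    by_cases hz : z ∈ Z
    · have hz' : z ∈ hZfin.toFinset := hZfin.mem_toFinset.2 hz
      have h1 : (fun w => P.eval w * qf f β w) = fun w =>
          (∏ a ∈ hZfin.toFinset.erase z, (w - a) ^ (n a)) * ((w - z) ^ n z • qf f β w) := by
        funext w
        rw [hPev, ← Finset.mul_prod_erase _ _ hz', smul_eq_mul]
        ring
      rw [h1]
      apply DifferentiableAt.mul
      · fun_prop
      · exact (hn z).differentiableAt
    · have : AnalyticAt ℂ (qf f β) z := not_not.1 hz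
      exact (P.differentiable z).mul this.differentiableAt
  obtain ⟨N, C, hC, hgr⟩ := poly_growth P
  obtain ⟨M, hM⟩ := (isCompact_closedBall (0 : ℂ) R).exists_bound_of_continuousOn
      hEd.continuous.continuousOn
  obtain ⟨Q0, hQ0⟩ := poly_of_growth N _ hEd ⟨|M| + C * c⁻¹, fun z => by
    have h1 : 1 ≤ (1 + ‖z‖) ^ N := one_le_pow₀ (by linarith [norm_nonneg z])
    have h0 : 0 ≤ C * c⁻¹ := by positivity
    by_cases hz : ‖z‖ ≤ R
    · have h2 := hM z (by simpa using hz)
      have h3 := le_abs_self M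
      have h4 := abs_nonneg M
      calc ‖P.eval z * qf f β z‖ ≤ |M| := h2.trans h3
        _ ≤ |M| * (1 + ‖z‖) ^ N := le_mul_of_one_le_right h4 h1
        _ ≤ _ := by
          gcongr
          linarith
    · push Not at hz
      rw [norm_mul]
      calc ‖P.eval z‖ * ‖qf f β z‖ ≤ (C * (1 + ‖z‖) ^ N) * c⁻¹ :=
            mul_le_mul (hgr z) (hqb z hz.le) (norm_nonneg _) (by positivity)
        _ = (C * c⁻¹) * (1 + ‖z‖) ^ N := by ring
        _ ≤ _ := by
          gcongr
          linarith [abs_nonneg M]⟩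
  have hQne : Q0 ≠ 0 := by
    set r : ℝ := |R| + 1 with hr
    have hz1 : ‖((r : ℝ) : ℂ)‖ = r := by
      rw [Complex.norm_real, Real.norm_eq_abs, abs_of_pos]
      positivity
    have h1 : ∀ᶠ z in 𝓝[≠] ((r : ℝ) : ℂ), AnalyticAt ℂ f z :=
      (hf.meromorphicAt _).eventually_analyticAt
    have h2 : ∀ᶠ z in 𝓝[≠] ((r : ℝ) : ℂ), R < ‖z‖ := by
      apply Filter.Eventually.filter_mono nhdsWithin_le_nhds
      apply continuousAt_const.eventually_lt continuous_norm.continuousAt
      rw [hz1, hr]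
      linarith [le_abs_self R]
    obtain ⟨z0, ha, hz0⟩ := (h1.and h2).exists
    intro h0
    have h3 := hQ0 z0
    rw [h0, Polynomial.eval_zero] at h3
    have h4 : P.eval z0 ≠ 0 := by
      apply hPne
      intro hz
      have := hZsub hz
      rw [mem_ball_zero_iff] at this
      linarith
    have h5 : qf f β z0 ≠ 0 := by
      simp only [qf, if_pos ha]
      apply inv_ne_zero
      rw [← norm_pos_iff]
      exact lt_of_lt_of_le hc (hR z0 hz0.le ha)
    exact (mul_ne_zero h4 h5) h3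
  have hPne0 : P ≠ 0 := by
    rw [hP, Finset.prod_ne_zero_iff]
    intro a _
    exact pow_ne_zero _ (Polynomial.X_sub_C_ne_zero a)
  refine ⟨(Polynomial.C β * Q0 + P) * P, Q0 * P, mul_ne_zero hQne hPne0, fun z hz => ?_⟩
  rw [Polynomial.eval_mul] at hz
  have hz1 : Q0.eval z ≠ 0 := left_ne_zero_of_mul hz
  have hz2 : P.eval z ≠ 0 := right_ne_zero_of_mul hz
  have h3 : P.eval z * qf f β z = Q0.eval z := hQ0 z
  have h4 : qf f β z ≠ 0 := by
    intro h
    rw [h, mul_zero] at h3
    exact hz1 h3.symm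
  have h5 : AnalyticAt ℂ f z := by
    by_contra h
    apply h4
    simp only [qf, if_neg h]
  have h6 : qf f β z = (f z - β)⁻¹ := by simp only [qf, if_pos h5]
  have h7 : f z - β ≠ 0 := by
    intro h
    rw [h6, h, inv_zero] at h4
    exact h4 rfl
  rw [h6] at h3
  have h8 : P.eval z = Q0.eval z * (f z - β) := by
    rw [← h3]
    field_simp
  simp only [Polynomial.eval_mul, Polynomial.eval_add, Polynomial.eval_C]
  rw [mul_div_mul_right _ _ hz2, h8]
  field_simp
  ring

end Pool.Agent.H564R3.SLF6
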